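import Pool.Agent.R553.HW.Basic

/-!
# Clique minors of token graphs: statements (helper804)

`tok k G`: the vertices are the `k`-element sets of vertices of `G`, adjacent if they differ by
moving one element along an edge of `G`.
-/

set_option autoImplicit false

namespace Pool.Agent.R804.TK

open Pool.Agent.R553.HW

/-- The `k`-token graph. -/
def tok {V : Type} (k : ℕ) (G : SimpleGraph V) : SimpleGraph {S : Set V // S.ncard = k} where
  Adj S T := ∃ a b, G.Adj a b ∧ S.1 \ T.1 = {a} ∧ T.1 \ S.1 = {b}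
  symm := ⟨by
    rintro S T ⟨a, b, h, h1, h2⟩
    exact ⟨b, a, h.symm, h2, h1⟩⟩
  loopless := ⟨by
    rintro S ⟨a, b, h, h1, h2⟩
    rw [Set.sdiff_self] at h1
    exact Set.singleton_ne_empty a h1.symm⟩

/-- Contraction of the edge `uv` to `u`. -/
def contr {V : Type} (G : SimpleGraph V) (u v : V) : SimpleGraph {x : V // x ≠ v} where
  Adj x y := x ≠ y ∧ (G.Adj x.1 y.1 ∨ (x.1 = u ∧ G.Adj v y.1) ∨ (y.1 = u ∧ G.Adj x.1 v))
  symm := ⟨by
    rintro x y ⟨h, h1 | h1 | h1⟩
    · exact ⟨h.symm, Or.inl h1.symm⟩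
    · exact ⟨h.symm, Or.inr (Or.inr ⟨h1.1, h1.2.symm⟩)⟩
    · exact ⟨h.symm, Or.inr (Or.inl ⟨h1.1, h1.2.symm⟩)⟩⟩
  loopless := ⟨fun x h => h.1 rfl⟩

/-- The token graph of a contraction is a minor of the token graph. -/
def S_CON : Prop := ∀ (V : Type) [Finite V] (G : SimpleGraph V) (u v : V), G.Adj u v →
  ∀ (k m : ℕ), CMt (tok k (contr G u v)) (Fin m) → CMt (tok k G) (Fin m)

/-- A clique minor with `u, v` in the same branch set gives one of the contraction. -/
def S_MIN : Prop := ∀ (V : Type) (G : SimpleGraph V) (u v : V), G.Adj u v →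
  ∀ (m : ℕ) (f : Fin m → Set V), (∀ i, (G.induce (f i)).Connected) →
    (∀ i j, i ≠ j → Disjoint (f i) (f j)) →
    (∀ i j, i ≠ j → ∃ x ∈ f i, ∃ y ∈ f j, G.Adj x y) →
    ∀ i, u ∈ f i → v ∈ f i → CMt (contr G u v) (Fin m)

/-- Deleting a vertex. -/
def S_DEL : Prop := ∀ (V : Type) [Finite V] (G : SimpleGraph V) (v : V) (k m : ℕ),
  CMt (tok k (G.induce {x | x ≠ v})) (Fin m) → CMt (tok k G) (Fin m)

/-- The recursion for Johnson graphs. -/
def S_JOH : Prop := ∀ (V : Type) [Finite V] (v : V) (k m : ℕ), 1 ≤ k → k + 1 ≤ Nat.card V →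
  CMt (tok k ((⊤ : SimpleGraph V).induce {x | x ≠ v})) (Fin m) →
  CMt (tok k (⊤ : SimpleGraph V)) (Fin (m + 1))

/-- The case of `k + 1` vertices: the token graph is isomorphic to the graph. -/
def S_BAS : Prop := ∀ (V : Type) [Finite V] (G : SimpleGraph V) (k m : ℕ),
  Nat.card V = k + 1 → CMt G (Fin m) → CMt (tok k G) (Fin m)

end Pool.Agent.R804.TK
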