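import Pool.Agent.R804.TK.Defs

/-! Clique minors and colourings of token graphs, from the pieces. -/

set_option autoImplicit false

namespace Pool.Agent.R804.TK

open Pool.Agent.R553.HW

theorem tok_col {V : Type} [Finite V] (G : SimpleGraph V) (k c : ℕ) (hk : 1 ≤ k)
    (h : G.Colorable c) : (tok k G).Colorable c := by
  classical
  obtain ⟨C⟩ := h
  rcases Nat.eq_zero_or_pos c with hc | hc
  · subst hc
    have hV : IsEmpty V := ⟨fun v => (C v).elim0⟩
    have hE : IsEmpty {S : Set V // S.ncard = k} := by
      constructor
      rintro ⟨S, hS⟩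
      have : S = ∅ := Set.eq_empty_of_isEmpty S
      rw [this, Set.ncard_empty] at hS
      omega
    exact ⟨SimpleGraph.Coloring.mk (fun S => hE.elim S) (fun {S} _ _ => hE.elim S)⟩
  · obtain ⟨c', rfl⟩ := Nat.exists_eq_succ_of_ne_zero hc.ne'
    let F : Set V → Finset V := fun S => S.toFinite.toFinset
    have hF : ∀ S x, x ∈ F S ↔ x ∈ S := fun S x => Set.Finite.mem_toFinset _
    refine ⟨SimpleGraph.Coloring.mk (fun S => ∑ x ∈ F S.1, (C x : Fin (c' + 1))) ?_⟩
    rintro ⟨S, hS⟩ ⟨T, hT⟩ ⟨a, b, hab, h1, h2⟩ h3
    simp only at h1 h2 h3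
    have ha : a ∈ S \ T := by rw [h1]; rfl
    have hb : b ∈ T \ S := by rw [h2]; rfl
    have e1 : F S = insert a (F S ∩ F T) := by
      ext x
      rw [Finset.mem_insert, Finset.mem_inter, hF, hF]
      constructor
      · intro hx
        by_cases hxT : x ∈ T
        · exact Or.inr ⟨hx, hxT⟩
        · left
          have : x ∈ S \ T := ⟨hx, hxT⟩
          rw [h1] at this
          exact this
      · rintro (rfl | hx)
        · exact ha.1
        · exact hx.1
    have e2 : F T = insert b (F S ∩ F T) := by
      ext x
      rw [Finset.mem_insert, Finset.mem_inter, hF, hF]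
      constructor
      · intro hx
        by_cases hxS : x ∈ S
        · exact Or.inr ⟨hxS, hx⟩
        · left
          have : x ∈ T \ S := ⟨hx, hxS⟩
          rw [h2] at this
          exact this
      · rintro (rfl | hx)
        · exact hb.1
        · exact hx.2
    have s1 : ∑ x ∈ F S, (C x : Fin (c' + 1)) = C a + ∑ x ∈ F S ∩ F T, C x := by
      conv_lhs => rw [e1]
      refine Finset.sum_insert ?_
      rw [Finset.mem_inter, hF, hF]
      exact fun h => ha.2 h.2
    have s2 : ∑ x ∈ F T, (C x : Fin (c' + 1)) = C b + ∑ x ∈ F S ∩ F T, C x := by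
      conv_lhs => rw [e2]
      refine Finset.sum_insert ?_
      rw [Finset.mem_inter, hF, hF]
      exact fun h => hb.2 h.1
    rw [s1, s2] at h3
    exact C.valid hab (add_right_cancel h3)

theorem cmt_avoid {V : Type} (G : SimpleGraph V) (v : V) (m : ℕ) (f : Fin m → Set V)
    (f1 : ∀ i, (G.induce (f i)).Connected) (f2 : ∀ i j, i ≠ j → Disjoint (f i) (f j))
    (f3 : ∀ i j, i ≠ j → ∃ x ∈ f i, ∃ y ∈ f j, G.Adj x y) (hv : ∀ i, v ∉ f i) :
    CMt (G.induce {x | x ≠ v}) (Fin m) := by
  have hne : ∀ i x, x ∈ f i → x ∈ {x | x ≠ v} := by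
    rintro i x hx rfl
    exact hv i hx
  refine ⟨fun i => {x | x.1 ∈ f i}, ?_, ?_, ?_⟩
  · intro i
    let g : G.induce (f i) →g (G.induce {x | x ≠ v}).induce {x | x.1 ∈ f i} :=
      { toFun := fun x => ⟨⟨x.1, hne i x.1 x.2⟩, x.2⟩
        map_rel' := fun {a b} hab => hab }
    refine SimpleGraph.Connected.map g ?_ (f1 i)
    rintro ⟨⟨x, hx⟩, hx'⟩
    exact ⟨⟨x, hx'⟩, rfl⟩
  · intro i j hij
    rw [Set.disjoint_left]
    intro x hx hy
    exact Set.disjoint_left.1 (f2 i j hij) hx hy
  · intro i j hij
    obtain ⟨x, hx, y, hy, hxy⟩ := f3 i j hij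
    exact ⟨⟨x, hne i x hx⟩, hx, ⟨y, hne j y hy⟩, hy, hxy⟩

theorem adj_in {V : Type} (G : SimpleGraph V) (S : Set V) (h : (G.induce S).Connected)
    (u v : V) (hu : u ∈ S) (hv : v ∈ S) (huv : u ≠ v) : ∃ x ∈ S, ∃ y ∈ S, G.Adj x y := by
  obtain ⟨p⟩ := h.preconnected ⟨u, hu⟩ ⟨v, hv⟩
  cases p with
  | nil => exact absurd rfl huv
  | @cons _ w _ h p => exact ⟨u, hu, w.1, w.2, h⟩

theorem cmt_complete {V : Type} [Finite V] (m : ℕ) (h : m ≤ Nat.card V) :
    CMt (⊤ : SimpleGraph V) (Fin m) := by
  classical
  have := Fintype.ofFinite V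
  have h1 : CMt (⊤ : SimpleGraph V) V := by
    refine ⟨fun w => {w}, fun w => conn_singleton _ _, ?_, ?_⟩
    · intro w w' h
      rw [Set.disjoint_singleton]
      exact h
    · intro w w' h'
      exact ⟨w, rfl, w', rfl, h'⟩
  refine CMt_of_card h1 ?_
  rwa [Nat.card_eq_fintype_card] at h

theorem card_ne {V : Type} [Finite V] (v : V) : Nat.card {x : V // x ≠ v} = Nat.card V - 1 := by
  classical
  have := Fintype.ofFinite V
  rw [Nat.card_eq_fintype_card, Nat.card_eq_fintype_card, Fintype.card_subtype_compl,
    Fintype.card_subtype_eq]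

theorem tok_minor (CON : S_CON) (MIN : S_MIN) (DEL : S_DEL) (JOH : S_JOH) (BAS : S_BAS) :
    ∀ (n : ℕ) (V : Type) [Finite V], Nat.card V = n → ∀ k, 1 ≤ k → k + 1 ≤ n →
      ∀ (G : SimpleGraph V) (m : ℕ), CMt G (Fin m) → CMt (tok k G) (Fin m) := by
  intro n
  induction n with
  | zero =>
    intro V _ _ k hk hkn
    omega
  | succ n ih =>
    intro V _ hV k hk hkn G m hG
    rcases Nat.eq_or_lt_of_le hkn with he | hlt
    · exact BAS V G k m (by omega) hG
    · obtain ⟨f, f1, f2, f3⟩ := hG
      by_cases hc1 : ∃ v, ∀ i, v ∉ f i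
      · obtain ⟨v, hv⟩ := hc1
        have h1 := cmt_avoid G v m f f1 f2 f3 hv
        have hcard : Nat.card ({x | x ≠ v} : Set V) = n := by
          have := card_ne v
          rw [hV] at this
          exact this
        exact DEL V G v k m (ih _ hcard k hk (by omega) _ m h1)
      · by_cases hc2 : ∃ i, ∃ u ∈ f i, ∃ v ∈ f i, u ≠ v
        · obtain ⟨i, u, hu, v, hv, huv⟩ := hc2
          obtain ⟨x, hx, y, hy, hxy⟩ := adj_in G (f i) (f1 i) u v hu hv huv
          have h1 := MIN V G x y hxy m f f1 f2 f3 i hx hy
          have hcard : Nat.card {z : V // z ≠ y} = n := by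
            rw [card_ne y, hV]
            rfl
          exact CON V G x y hxy k m (ih _ hcard k hk (by omega) _ m h1)
        · push Not at hc1 hc2
          -- `G` is complete with `m` vertices
          have hmem : ∀ i, ∃ x, x ∈ f i := fun i => by
            obtain ⟨x⟩ := (f1 i).nonempty
            exact ⟨x.1, x.2⟩
          choose g hg using hmem
          choose p hp using hc1
          have hgp : ∀ v, g (p v) = v := fun v => hc2 (p v) _ (hg _) _ (hp v)
          have htop : G = ⊤ := by
            ext a b
            rw [SimpleGraph.top_adj]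
            constructor
            · exact fun h => h.ne
            · intro hab
              have hpab : p a ≠ p b := by
                intro h
                apply hab
                rw [← hgp a, ← hgp b, h]
              obtain ⟨x, hx, y, hy, hxy⟩ := f3 _ _ hpab
              rw [hc2 (p a) a (hp a) x hx, hc2 (p b) b (hp b) y hy]
              exact hxy
          have hm : m ≤ n + 1 := by
            have hinj : Function.Injective g := by
              intro i j hij
              by_contra hne
              have := Set.disjoint_left.1 (f2 i j hne) (hg i)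
              rw [hij] at this
              exact this (hg j)
            have := Nat.card_le_card_of_injective g hinj
            rw [Nat.card_fin, hV] at this
            exact this
          subst htop
          have hne : Nonempty V := by
            have : 0 < Nat.card V := by omega
            exact (Nat.card_pos_iff.1 this).1
          obtain ⟨v⟩ := hne
          have hcard : Nat.card ({x | x ≠ v} : Set V) = n := by
            have := card_ne v
            rw [hV] at this
            exact this
          have h0 : ((⊤ : SimpleGraph V).induce {x | x ≠ v}) = ⊤ := by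
            ext a b
            rw [SimpleGraph.comap_adj, SimpleGraph.top_adj, SimpleGraph.top_adj]
            exact not_congr (by
              constructor
              · exact fun h => Subtype.ext h
              · exact fun h => congrArg _ h)
          have h1 : CMt (tok k ((⊤ : SimpleGraph V).induce {x | x ≠ v})) (Fin n) := by
            refine ih _ hcard k hk (by omega) _ n ?_
            rw [h0]
            exact cmt_complete n hcard.ge
          have h2 := JOH V v k n hk (by omega) h1
          exact CMt_emb h2 (Fin.castLEEmb hm)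

end Pool.Agent.R804.TK
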